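import Pool.Agent.Helper32_NJ.Stmts

/-!
Module CRIT: the criterion for the descent.
-/

set_option autoImplicit false

namespace Pool.Agent.NJ.H56

open Pool.Agent.NJ

/-- A point, and the abscissa of its double. -/
def Dbl (e₂ e₃ : ℤ) (ξ η X : ℚ) : Prop :=
  η ≠ 0 ∧ η ^ 2 = ξ * (ξ - e₂) * (ξ - e₃) ∧ X * (4 * η ^ 2) = (ξ ^ 2 - e₂ * e₃) ^ 2

lemma sq_of_int {a : ℤ} (h : IsSquare a) : IsSquare (a : ℚ) := by
  obtain ⟨b, rfl⟩ := h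
  exact ⟨b, by push_cast; ring⟩

/-- `x` is a square if `a * x` is, `a` a nonzero square. -/
lemma sq_cancel {a x : ℚ} (ha : a ≠ 0) (hs : IsSquare a) (h : IsSquare (a * x)) : IsSquare x := by
  obtain ⟨b, rfl⟩ := hs
  obtain ⟨c, hc⟩ := h
  have hb : b ≠ 0 := by rintro rfl; exact ha (by ring)
  exact ⟨c / b, by field_simp; linear_combination hc⟩

lemma sq_div (b c d : ℚ) : b * (c / d) * (b * (c / d)) = (b * b) * (c ^ 2 / d ^ 2) := by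
  rw [← div_pow]; ring

lemma halve (hlv : HLVStmt) {e₂ e₃ : ℤ} (h2 : e₂ ≠ 0) (h3 : e₃ ≠ 0) (h23 : e₂ ≠ e₃) {x y : ℚ}
    (hy : y ≠ 0) (hc : y ^ 2 = x * (x - e₂) * (x - e₃)) (s1 : IsSquare x)
    (s2 : IsSquare (x - e₂)) : ∃ ξ η : ℚ, Dbl e₂ e₃ ξ η x := by
  have hy2 : y ^ 2 ≠ 0 := pow_ne_zero 2 hy
  have hx : x * (x - e₂) ≠ 0 := by
    intro h
    apply hy2
    rw [hc, h]; ring
  have s3 : IsSquare (x - e₃) := sq_cancel hx (s1.mul s2) ⟨y, by rw [← hc]; ring⟩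
  obtain ⟨r, hr⟩ := s1
  obtain ⟨s, hs⟩ := s2
  obtain ⟨t, ht⟩ := s3
  obtain ⟨ξ, η, k1, k2, k3⟩ := hlv e₂ e₃ r s t (by exact_mod_cast h2) (by exact_mod_cast h3)
    (by exact_mod_cast h23) (by rw [← hs.trans (by ring : s * s = s ^ 2)]; rw [hr]; ring)
    (by rw [← ht.trans (by ring : t * t = t ^ 2)]; rw [hr]; ring)
  refine ⟨ξ, η, k1, k2, ?_⟩
  rw [← k3, hr]; ring

/-- One descent step. -/
lemma step (pts : PTSStmt) (hlv : HLVStmt) {e₂ e₃ : ℤ} (h2 : e₂ ≠ 0) (h3 : e₃ ≠ 0)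
    (h23 : e₂ ≠ e₃) (hT : ∀ d₁ d₂ : ℤ, Cls e₂ e₃ d₁ d₂ → InT e₂ e₃ d₁ d₂) {ξ η X : ℚ}
    (h : Dbl e₂ e₃ ξ η X) : ∃ ξ₁ η₁ ξ₂ η₂ : ℚ, Dbl e₂ e₃ ξ₁ η₁ X ∧ Dbl e₂ e₃ ξ₂ η₂ ξ₁ := by
  obtain ⟨hη, hc, hX⟩ := h
  have q2 : (e₂ : ℚ) ≠ 0 := by exact_mod_cast h2
  have q3 : (e₃ : ℚ) ≠ 0 := by exact_mod_cast h3
  have q23 : (e₂ : ℚ) - e₃ ≠ 0 := by
    rw [sub_ne_zero]; exact_mod_cast h23
  have q32 : (e₃ : ℚ) - e₂ ≠ 0 := by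
    rw [sub_ne_zero]; exact_mod_cast h23.symm
  have hη2 : η ^ 2 ≠ 0 := pow_ne_zero 2 hη
  have hξ : ξ ≠ 0 := by rintro rfl; apply hη2; rw [hc]; ring
  have hξ2 : ξ - e₂ ≠ 0 := by intro h; apply hη2; rw [hc, h]; ring
  have hξ3 : ξ - e₃ ≠ 0 := by intro h; apply hη2; rw [hc, h]; ring
  obtain ⟨d₁, d₂, r, s, w, A, B, hP, hr⟩ := pts e₂ e₃ ξ η hη hc
  have s0 : (s : ℚ) ≠ 0 := by exact_mod_cast hP.s0
  have e1 : ξ = d₁ * ((A : ℚ) / s) ^ 2 := by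
    rw [hr, hP.h1]; push_cast; field_simp
  have e2 : ξ - e₂ = d₂ * ((B : ℚ) / s) ^ 2 := by
    have : (r : ℚ) - e₂ * s ^ 2 = d₂ * B ^ 2 := by exact_mod_cast hP.h2
    rw [hr]; field_simp; linear_combination this
  have key : ∀ x y : ℚ, y ≠ 0 → y ^ 2 = x * (x - e₂) * (x - e₃) →
      X * (4 * y ^ 2) = (x ^ 2 - e₂ * e₃) ^ 2 → IsSquare x → IsSquare (x - e₂) →
      ∃ ξ₁ η₁ ξ₂ η₂ : ℚ, Dbl e₂ e₃ ξ₁ η₁ X ∧ Dbl e₂ e₃ ξ₂ η₂ ξ₁ := by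
    intro x y hy hcy hXy s1 s2
    obtain ⟨ξ₂, η₂, h5⟩ := halve hlv h2 h3 h23 hy hcy s1 s2
    exact ⟨x, y, ξ₂, η₂, ⟨hy, hcy, hXy⟩, h5⟩
  -- the factor of a class
  have cls : ∀ (d : ℤ) (u g t : ℚ), u = d * g ^ 2 → u ≠ 0 → IsSquare ((d : ℚ) * t) →
      IsSquare (u * t) := by
    rintro d u g t hu - ⟨b, hb⟩
    exact ⟨g * b, by rw [hu]; linear_combination g ^ 2 * hb⟩
  have hXe : X = (ξ ^ 2 - e₂ * e₃) ^ 2 / (4 * (ξ * (ξ - e₂) * (ξ - e₃))) := by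
    rw [← hc]; field_simp; linear_combination hX
  rcases hT d₁ d₂ ⟨r, s, w, A, B, hP⟩ with ⟨t1, t2⟩ | ⟨t1, t2⟩ | ⟨t1, t2⟩ | ⟨t1, t2⟩
  · refine key ξ η hη hc hX ?_ ?_
    · have := cls d₁ ξ (A / s) 1 e1 hξ (by rw [mul_one]; exact sq_of_int t1)
      rwa [mul_one] at this
    · have := cls d₂ (ξ - e₂) (B / s) 1 e2 hξ2 (by rw [mul_one]; exact sq_of_int t2)
      rwa [mul_one] at this
  · have s1 := cls d₁ ξ (A / s) (e₂ * e₃) e1 hξ (by exact_mod_cast sq_of_int t1)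
    have s2 := cls d₂ (ξ - e₂) (B / s) (-e₂) e2 hξ2 (by exact_mod_cast sq_of_int t2)
    refine key (e₂ * e₃ / ξ) (e₂ * e₃ * η / ξ ^ 2) ?_ ?_ ?_ ?_ ?_
    · positivity
    · rw [div_pow, mul_pow, hc]; field_simp; ring
    · rw [div_pow, mul_pow, hc, hXe]; field_simp; ring
    · obtain ⟨b, hb⟩ := s1
      exact ⟨b / ξ, by field_simp; linear_combination hb⟩
    · -- `x - e₂ = - e₂ (ξ - e₃) / ξ = (-e₂ (ξ - e₂)) * (η / (ξ (ξ - e₂)))²`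
      obtain ⟨b, hb⟩ := s2
      refine ⟨b * (η / (ξ * (ξ - e₂))), ?_⟩
      have : b * (η / (ξ * (ξ - e₂))) * (b * (η / (ξ * (ξ - e₂))))
          = (b * b) * (η ^ 2 / (ξ * (ξ - e₂)) ^ 2) := sq_div _ _ _
      rw [this, ← hb, hc]; field_simp; ring
  · have s1 := cls d₁ ξ (A / s) e₂ e1 hξ (by exact_mod_cast sq_of_int t1)
    have s2 := cls d₂ (ξ - e₂) (B / s) (e₂ * (e₂ - e₃)) e2 hξ2 (by exact_mod_cast sq_of_int t2)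
    refine key (e₂ * (ξ - e₃) / (ξ - e₂)) (e₂ * (e₂ - e₃) * η / (ξ - e₂) ^ 2) ?_ ?_ ?_ ?_ ?_
    · positivity
    · rw [div_pow, mul_pow, hc]; field_simp; ring
    · rw [div_pow, mul_pow, hc, hXe]; field_simp; ring
    · obtain ⟨b, hb⟩ := s1
      refine ⟨b * (η / (ξ * (ξ - e₂))), ?_⟩
      have : b * (η / (ξ * (ξ - e₂))) * (b * (η / (ξ * (ξ - e₂))))
          = (b * b) * (η ^ 2 / (ξ * (ξ - e₂)) ^ 2) := sq_div _ _ _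
      rw [this, ← hb, hc]; field_simp
    · obtain ⟨b, hb⟩ := s2
      exact ⟨b / (ξ - e₂), by field_simp; linear_combination hb⟩
  · have s1 := cls d₁ ξ (A / s) e₃ e1 hξ (by exact_mod_cast sq_of_int t1)
    have s2 := cls d₂ (ξ - e₂) (B / s) (e₃ - e₂) e2 hξ2 (by exact_mod_cast sq_of_int t2)
    refine key (e₃ * (ξ - e₂) / (ξ - e₃)) (e₃ * (e₃ - e₂) * η / (ξ - e₃) ^ 2) ?_ ?_ ?_ ?_ ?_
    · positivity
    · rw [div_pow, mul_pow, hc]; field_simp; ring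
    · rw [div_pow, mul_pow, hc, hXe]; field_simp; ring
    · obtain ⟨b, hb⟩ := s1
      refine ⟨b * (η / (ξ * (ξ - e₃))), ?_⟩
      have : b * (η / (ξ * (ξ - e₃))) * (b * (η / (ξ * (ξ - e₃))))
          = (b * b) * (η ^ 2 / (ξ * (ξ - e₃)) ^ 2) := sq_div _ _ _
      rw [this, ← hb, hc]; field_simp
    · obtain ⟨b, hb⟩ := s2
      refine ⟨b * (η / ((ξ - e₂) * (ξ - e₃))), ?_⟩
      have : b * (η / ((ξ - e₂) * (ξ - e₃))) * (b * (η / ((ξ - e₂) * (ξ - e₃))))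
          = (b * b) * (η ^ 2 / ((ξ - e₂) * (ξ - e₃)) ^ 2) := sq_div _ _ _
      rw [this, ← hb, hc]; field_simp; ring

theorem crit (pts : PTSStmt) (hlv : HLVStmt) (two : TWOStmt) : CRITStmt := by
  intro e₂ e₃ h2 h3 h23 hmod hT X₀ Y₀ hY
  by_contra hY0
  have htwo : ∀ ξ η X : ℚ, Dbl e₂ e₃ ξ η X → padicValRat 2 X < 0 ∧
      (padicValRat 2 ξ < 0 → padicValRat 2 X = padicValRat 2 ξ - 2) := by
    rintro ξ η X ⟨k1, k2, k3⟩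
    rcases hmod with ⟨m1, m2⟩ | ⟨m1, m2⟩
    · exact two e₂ e₃ h3 m1 m2 ξ η X k1 k2 k3
    · exact two e₃ e₂ h2 m1 m2 ξ η X k1 (by rw [k2]; ring) (by rw [k3]; ring)
  have main : ∀ n : ℕ, ∀ ξ η X : ℚ, Dbl e₂ e₃ ξ η X → padicValRat 2 X ≤ -1 - 2 * (n : ℤ) := by
    intro n
    induction n with
    | zero =>
      intro ξ η X h
      have := (htwo ξ η X h).1
      push_cast
      omega
    | succ n ih =>
      intro ξ η X h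
      obtain ⟨ξ₁, η₁, ξ₂, η₂, g1, g2⟩ := step pts hlv h2 h3 h23 hT h
      have a1 := ih _ _ _ g2
      have a2 := (htwo _ _ _ g1).2 (by omega)
      push_cast
      omega
  have hD : Dbl e₂ e₃ X₀ Y₀ ((X₀ ^ 2 - e₂ * e₃) ^ 2 / (4 * Y₀ ^ 2)) := by
    refine ⟨hY0, hY, ?_⟩
    field_simp
  have h5 := main ((- padicValRat 2 ((X₀ ^ 2 - (e₂ : ℚ) * e₃) ^ 2 / (4 * Y₀ ^ 2))).toNat) _ _ _ hD
  have h6 := (htwo _ _ _ hD).1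
  omega

end Pool.Agent.NJ.H56
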