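import Pool.Agent.Helper32_NJ.Stmts

/-!
Module TWO: the 2-adic size of the double of a rational point.
-/

set_option autoImplicit false

namespace Pool.Agent.NJ.H56

open Pool.Agent.NJ

lemma sub_lt {a b : ℚ} (ha : a ≠ 0) (hb : b ≠ 0) (h : padicValRat 2 a < padicValRat 2 b) :
    padicValRat 2 (a - b) = padicValRat 2 a := by
  have hne : a + -b ≠ 0 := by
    intro h0
    have : a = b := by linarith
    rw [this] at h
    exact lt_irrefl _ h
  rw [sub_eq_add_neg]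
  refine padicValRat.add_eq_of_lt hne ha (neg_ne_zero.2 hb) ?_
  rw [padicValRat.neg]
  exact h

lemma sub_gt {a b : ℚ} (ha : a ≠ 0) (hb : b ≠ 0) (h : padicValRat 2 b < padicValRat 2 a) :
    padicValRat 2 (a - b) = padicValRat 2 b := by
  rw [← neg_sub, padicValRat.neg]
  exact sub_lt hb ha h

lemma sub_ge {a b : ℚ} {k : ℤ} (hab : a - b ≠ 0) (ha : k ≤ padicValRat 2 a)
    (hb : k ≤ padicValRat 2 b) : k ≤ padicValRat 2 (a - b) := by
  have h := padicValRat.min_le_padicValRat_add (p := 2) (q := a) (r := -b)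
    (by rwa [← sub_eq_add_neg])
  rw [padicValRat.neg, ← sub_eq_add_neg] at h
  exact (le_min ha hb).trans h

lemma val_two : padicValRat 2 (2 : ℚ) = 1 := by
  have := padicValRat.self (p := 2) one_lt_two
  exact_mod_cast this

theorem two : TWOStmt := by
  intro e₂ e₃ h30 h2 h3 ξ η X hη hc hX
  have h20 : e₂ ≠ 0 := by rintro rfl; norm_num at h2
  have q2 : (e₂ : ℚ) ≠ 0 := by exact_mod_cast h20
  have q3 : (e₃ : ℚ) ≠ 0 := by exact_mod_cast h30
  have hη2 : η ^ 2 ≠ 0 := pow_ne_zero 2 hη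
  have hξ : ξ ≠ 0 := by
    rintro rfl
    apply hη2
    rw [hc]; ring
  have hξ2 : ξ - e₂ ≠ 0 := by
    intro h
    apply hη2
    rw [hc, h]; ring
  have hξ3 : ξ - e₃ ≠ 0 := by
    intro h
    apply hη2
    rw [hc, h]; ring
  -- valuations of the roots
  have v2 : padicValRat 2 (e₂ : ℚ) = 1 := by
    obtain ⟨u, hu⟩ : ∃ u : ℤ, e₂ = 2 * u := ⟨e₂ / 2, by omega⟩
    have hu1 : ¬ (2 : ℤ) ∣ u := by omega
    have hu0 : (u : ℚ) ≠ 0 := by
      have : u ≠ 0 := by rintro rfl; exact hu1 (dvd_zero _)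
      exact_mod_cast this
    have h1 : padicValRat 2 (u : ℚ) = 0 := by
      rw [padicValRat.of_int, padicValInt.eq_zero_of_not_dvd]
      · rfl
      · exact_mod_cast hu1
    rw [hu]
    push_cast
    rw [padicValRat.mul two_ne_zero hu0, h1, val_two]
    rfl
  obtain ⟨n, hn, v3⟩ : ∃ n : ℤ, 2 ≤ n ∧ padicValRat 2 (e₃ : ℚ) = n := by
    refine ⟨_, ?_, rfl⟩
    obtain ⟨u, hu⟩ := h3
    have hu0 : (u : ℚ) ≠ 0 := by
      have : u ≠ 0 := by rintro rfl; exact h30 (by rw [hu]; rfl)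
      exact_mod_cast this
    have h1 : 0 ≤ padicValRat 2 (u : ℚ) := by
      rw [padicValRat.of_int]
      exact Int.natCast_nonneg _
    rw [hu]
    push_cast
    rw [show (4 : ℚ) = 2 * 2 by norm_num, mul_assoc, padicValRat.mul two_ne_zero
      (mul_ne_zero two_ne_zero hu0), padicValRat.mul two_ne_zero hu0, val_two]
    omega
  have v23 : padicValRat 2 ((e₂ : ℚ) * e₃) = n + 1 := by
    rw [padicValRat.mul q2 q3, v2, v3]; ring
  have q23 : (e₂ : ℚ) * e₃ ≠ 0 := mul_ne_zero q2 q3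
  have hξsq : ξ ^ 2 ≠ 0 := pow_ne_zero 2 hξ
  have vξ2 : padicValRat 2 (ξ ^ 2) = 2 * padicValRat 2 ξ := by
    rw [padicValRat.pow]; push_cast; ring
  have vη : 2 * padicValRat 2 η = padicValRat 2 ξ + padicValRat 2 (ξ - e₂)
      + padicValRat 2 (ξ - e₃) := by
    have h := congrArg (padicValRat 2) hc
    rw [padicValRat.pow, padicValRat.mul (mul_ne_zero hξ hξ2) hξ3,
      padicValRat.mul hξ hξ2] at h
    push_cast at h
    exact h
  -- the valuation of `X` when the numerator does not vanish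
  have vX : ∀ w : ℤ, ξ ^ 2 - e₂ * e₃ ≠ 0 → padicValRat 2 (ξ ^ 2 - e₂ * e₃) = w →
      padicValRat 2 X = 2 * w - 2 - 2 * padicValRat 2 η := by
    intro w hN hw
    have hX0 : X ≠ 0 := by
      rintro rfl
      rw [zero_mul] at hX
      exact pow_ne_zero 2 hN hX.symm
    have h := congrArg (padicValRat 2) hX
    rw [padicValRat.pow, hw, show (4 : ℚ) * η ^ 2 = 2 * (2 * η ^ 2) by ring,
      padicValRat.mul hX0 (mul_ne_zero two_ne_zero (mul_ne_zero two_ne_zero hη2)),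
      padicValRat.mul two_ne_zero (mul_ne_zero two_ne_zero hη2),
      padicValRat.mul two_ne_zero hη2, padicValRat.pow, val_two] at h
    push_cast at h
    linarith
  have hNlt : padicValRat 2 (ξ ^ 2) < padicValRat 2 ((e₂ : ℚ) * e₃) →
      ξ ^ 2 - e₂ * e₃ ≠ 0 ∧ padicValRat 2 (ξ ^ 2 - e₂ * e₃) = 2 * padicValRat 2 ξ := by
    intro h
    refine ⟨fun h0 => ?_, ?_⟩
    · rw [show ξ ^ 2 = (e₂ : ℚ) * e₃ by linarith] at h
      exact lt_irrefl _ h
    · rw [sub_lt hξsq q23 h, vξ2]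
  have hNgt : padicValRat 2 ((e₂ : ℚ) * e₃) < padicValRat 2 (ξ ^ 2) →
      ξ ^ 2 - e₂ * e₃ ≠ 0 ∧ padicValRat 2 (ξ ^ 2 - e₂ * e₃) = n + 1 := by
    intro h
    refine ⟨fun h0 => ?_, ?_⟩
    · rw [show ξ ^ 2 = (e₂ : ℚ) * e₃ by linarith] at h
      exact lt_irrefl _ h
    · rw [sub_gt hξsq q23 h, v23]
  obtain ⟨m, hm⟩ : ∃ m : ℤ, padicValRat 2 ξ = m := ⟨_, rfl⟩
  rw [hm] at vξ2 vη hNlt ⊢
  rcases lt_or_ge m 0 with h0 | h0
  · have a2 : padicValRat 2 (ξ - e₂) = m := by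
      rw [sub_lt hξ q2 (by rw [hm, v2]; omega), hm]
    have a3 : padicValRat 2 (ξ - e₃) = m := by
      rw [sub_lt hξ q3 (by rw [hm, v3]; omega), hm]
    obtain ⟨hN, hN'⟩ := hNlt (by rw [vξ2, v23]; omega)
    have := vX _ hN hN'
    refine ⟨by omega, fun _ => by omega⟩
  refine ⟨?_, fun h => absurd h (not_lt.2 h0)⟩
  rcases eq_or_lt_of_le h0 with h0 | h0
  · have a2 : padicValRat 2 (ξ - e₂) = m := by
      rw [sub_lt hξ q2 (by rw [hm, v2]; omega), hm]
    have a3 : padicValRat 2 (ξ - e₃) = m := by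
      rw [sub_lt hξ q3 (by rw [hm, v3]; omega), hm]
    obtain ⟨hN, hN'⟩ := hNlt (by rw [vξ2, v23]; omega)
    have := vX _ hN hN'
    omega
  rcases eq_or_lt_of_le (show 1 ≤ m by omega) with h1 | h1
  · have a2 : 1 ≤ padicValRat 2 (ξ - e₂) :=
      sub_ge hξ2 (by rw [hm]; omega) (by rw [v2])
    have a3 : padicValRat 2 (ξ - e₃) = m := by
      rw [sub_lt hξ q3 (by rw [hm, v3]; omega), hm]
    obtain ⟨hN, hN'⟩ := hNlt (by rw [vξ2, v23]; omega)
    have := vX _ hN hN'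
    omega
  have a2 : padicValRat 2 (ξ - e₂) = 1 := by
    rw [sub_gt hξ q2 (by rw [hm, v2]; omega), v2]
  rcases lt_trichotomy m n with hmn | hmn | hmn
  · have a3 : padicValRat 2 (ξ - e₃) = m := by
      rw [sub_lt hξ q3 (by rw [hm, v3]; omega), hm]
    omega
  · have a3 : n ≤ padicValRat 2 (ξ - e₃) :=
      sub_ge hξ3 (by rw [hm]; omega) (by rw [v3])
    obtain ⟨hN, hN'⟩ := hNgt (by rw [vξ2, v23]; omega)
    have := vX _ hN hN'
    omega
  · have a3 : padicValRat 2 (ξ - e₃) = n := by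
      rw [sub_gt hξ q3 (by rw [hm, v3]; omega), v3]
    obtain ⟨hN, hN'⟩ := hNgt (by rw [vξ2, v23]; omega)
    have := vX _ hN hN'
    omega

end Pool.Agent.NJ.H56
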